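import Pool.Agent.Lib.MP_6bc78b_nt.MS.L.Iface

/-! Project MS, Part IIIa: GRW, polynomial growth and summability. -/

set_option autoImplicit false

open Filter Topology ArithmeticFunction

namespace Pool.Agent.Lib.MP_6bc78b_nt.MS.L.H97

open Pool.Agent.Lib.MP_6bc78b_nt.MS Pool.Agent.Lib.MP_6bc78b_nt.MS.L

lemma log_le_self (n : ℕ) : Real.log n ≤ n := by
  rcases Nat.eq_zero_or_pos n with rfl | hn
  · simp
  · have h := Real.log_le_sub_one_of_pos (show (0 : ℝ) < n by exact_mod_cast hn)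
    linarith

lemma pgr_one : Pgr one := by
  refine ⟨1, 0, fun n => ?_⟩
  unfold one
  rw [ArithmeticFunction.natCoe_apply, ArithmeticFunction.zeta_apply]
  split_ifs <;> simp

lemma pgr_lg : Pgr lg := by
  refine ⟨1, 1, fun n => ?_⟩
  unfold lg
  rw [ArithmeticFunction.log_apply, abs_of_nonneg (Real.log_natCast_nonneg n), one_mul, pow_one]
  exact log_le_self n

lemma La_le (n : ℕ) : La n ≤ n :=
  (ArithmeticFunction.vonMangoldt_le_log (n := n)).trans (log_le_self n)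

lemma La_nonneg (n : ℕ) : 0 ≤ La n := ArithmeticFunction.vonMangoldt_nonneg

lemma pgr_La : Pgr La := by
  refine ⟨1, 1, fun n => ?_⟩
  rw [abs_of_nonneg (La_nonneg n), one_mul, pow_one]
  exact La_le n

lemma pgr_bb (lam T : ℝ) (hl : 0 < lam) (hT : 1 < T) : Pgr (bb lam T) := by
  have hL : 0 < Real.log T := Real.log_pos hT
  have hlL : 0 < lam * Real.log T := mul_pos hl hL
  refine ⟨1 / (lam * Real.log T), 1, fun n => ?_⟩
  change |bbf lam T n| ≤ _
  unfold bbf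
  rw [pow_one]
  split_ifs with h
  · rcases Nat.eq_zero_or_pos n with rfl | hn
    · simp
    · have hn' : (0 : ℝ) < n := by exact_mod_cast hn
      have h1 : Real.log n ≤ lam * Real.log T := by
        have h2 := Real.log_le_log hn' h
        rwa [Real.log_rpow (by linarith)] at h2
      have h2 : 0 ≤ Real.log n / (lam * Real.log T) :=
        div_nonneg (Real.log_natCast_nonneg n) hlL.le
      have h3 : Real.log n / (lam * Real.log T) ≤ 1 := (div_le_one hlL).2 h1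
      have h4 : 0 ≤ La n := La_nonneg n
      have h5 : La n ≤ n := La_le n
      have e : ArithmeticFunction.vonMangoldt n = La n := rfl
      rw [e, abs_of_nonneg (div_nonneg (mul_nonneg h4 (by linarith)) hlL.le), div_mul_eq_mul_div,
        one_mul]
      refine div_le_div_of_nonneg_right ?_ hlL.le
      nlinarith
  · rw [abs_zero]
    positivity

lemma pgr_mul (a b : ArithmeticFunction ℝ) (ha : Pgr a) (hb : Pgr b) : Pgr (a * b) := by
  obtain ⟨C, k, hC⟩ := ha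
  obtain ⟨C', k', hC'⟩ := hb
  have hC0 : 0 ≤ C := by
    have := hC 1
    rw [Nat.cast_one, one_pow, mul_one] at this
    exact (abs_nonneg _).trans this
  have hC0' : 0 ≤ C' := by
    have := hC' 1
    rw [Nat.cast_one, one_pow, mul_one] at this
    exact (abs_nonneg _).trans this
  refine ⟨C * C', k + k' + 1, fun n => ?_⟩
  rw [ArithmeticFunction.mul_apply]
  refine (Finset.abs_sum_le_sum_abs _ _).trans ?_
  have h1 : ∀ x ∈ n.divisorsAntidiagonal, |a x.1 * b x.2| ≤ C * C' * (n : ℝ) ^ (k + k') := by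
    intro x hx
    rw [Nat.mem_divisorsAntidiagonal] at hx
    have hn0 : 0 < n := Nat.pos_of_ne_zero hx.2
    have hx1 : x.1 ≤ n := Nat.le_of_dvd hn0 ⟨x.2, hx.1.symm⟩
    have hx2 : x.2 ≤ n := Nat.le_of_dvd hn0 ⟨x.1, by rw [mul_comm]; exact hx.1.symm⟩
    have h2 : |a x.1| ≤ C * (n : ℝ) ^ k := (hC x.1).trans
      (mul_le_mul_of_nonneg_left (pow_le_pow_left₀ (by positivity) (by exact_mod_cast hx1) k) hC0)
    have h3 : |b x.2| ≤ C' * (n : ℝ) ^ k' := (hC' x.2).trans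
      (mul_le_mul_of_nonneg_left (pow_le_pow_left₀ (by positivity) (by exact_mod_cast hx2) k') hC0')
    rw [abs_mul]
    calc |a x.1| * |b x.2| ≤ (C * (n : ℝ) ^ k) * (C' * (n : ℝ) ^ k') :=
          mul_le_mul h2 h3 (abs_nonneg _) (by positivity)
      _ = _ := by rw [pow_add]; ring
  refine (Finset.sum_le_sum h1).trans ?_
  rw [Finset.sum_const, nsmul_eq_mul]
  have h2 : (n.divisorsAntidiagonal.card : ℝ) ≤ n := by
    have h3 : n.divisorsAntidiagonal.card ≤ n := by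
      rw [← Nat.map_div_right_divisors, Finset.card_map]
      exact Nat.card_divisors_le_self n
    exact_mod_cast h3
  calc (n.divisorsAntidiagonal.card : ℝ) * (C * C' * (n : ℝ) ^ (k + k'))
      ≤ n * (C * C' * (n : ℝ) ^ (k + k')) := mul_le_mul_of_nonneg_right h2 (by positivity)
    _ = _ := by rw [pow_succ]; ring

lemma abs_log_le {x : ℝ} (hx : 0 < x) : |Real.log x| ≤ x + x⁻¹ := by
  have h1 := Real.log_le_sub_one_of_pos hx
  have h2 := Real.log_le_sub_one_of_pos (inv_pos.2 hx)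
  rw [Real.log_inv] at h2
  have h3 : 0 < x⁻¹ := inv_pos.2 hx
  rw [abs_le]
  constructor <;> linarith

lemma gauss_le {T ρ : ℝ} (hT : 1 < T) (hρ : 0 < ρ) :
    ∃ M : ℝ, 0 ≤ M ∧ ∀ k : ℕ, GG T ((k : ℝ) / ρ) ≤ M * Real.exp (-(1 : ℝ) * ((k + 1 : ℕ) : ℝ)) := by
  have hD : 0 < DD T := by
    unfold DD
    have := Real.log_pos hT
    positivity
  have hpi := Real.pi_pos
  set α := (2 * Real.pi / ρ) ^ 2 / DD T ^ 2 with hα
  set β := 2 * T * (2 * Real.pi / ρ) / DD T ^ 2 with hβ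
  have hα0 : 0 < α := by positivity
  refine ⟨Real.exp ((β + 1) ^ 2 / (4 * α) + 1), (Real.exp_pos _).le, fun k => ?_⟩
  unfold GG
  rw [← Real.exp_add, Real.exp_le_exp]
  have h1 : -(2 * Real.pi * ((k : ℝ) / ρ) - T) ^ 2 / DD T ^ 2 =
      -α * (k : ℝ) ^ 2 + β * k - T ^ 2 / DD T ^ 2 := by
    rw [hα, hβ]
    field_simp
    ring
  rw [h1]
  have h2 : 0 ≤ T ^ 2 / DD T ^ 2 := by positivity
  have h3 : -α * (k : ℝ) ^ 2 + (β + 1) * k ≤ (β + 1) ^ 2 / (4 * α) := by
    rw [le_div_iff₀ (by positivity)]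
    nlinarith [sq_nonneg (2 * α * k - (β + 1))]
  push_cast
  linarith

lemma summable_main (a : ℕ → ℝ) (C : ℝ) (K : ℕ) (hC : ∀ n : ℕ, |a n| ≤ C * (n : ℝ) ^ K)
    (T : ℝ) (j : ℕ) (ρ : ℝ) (hT : 1 < T) (hρ : 0 < ρ) :
    Summable (fun k : ℕ => a k * Fj T j ((k : ℝ) / ρ)) := by
  have hC0 : 0 ≤ C := by
    have := hC 1
    rw [Nat.cast_one, one_pow, mul_one] at this
    exact (abs_nonneg _).trans this
  obtain ⟨M, hM0, hM⟩ := gauss_le hT hρ
  have hs : Summable (fun k : ℕ => C * (1 / ρ + ρ) ^ j * M *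
      (((k + 1 : ℕ) : ℝ) ^ (K + j) * Real.exp (-(1 : ℝ) * ((k + 1 : ℕ) : ℝ)))) := by
    refine Summable.mul_left _ ?_
    have h1 := Real.summable_pow_mul_exp_neg_nat_mul (K + j) (show (0 : ℝ) < 1 by norm_num)
    exact (summable_nat_add_iff 1).2 h1
  refine Summable.of_norm_bounded hs fun k => ?_
  rw [Real.norm_eq_abs, abs_mul]
  unfold Fj
  have hG0 : 0 ≤ GG T ((k : ℝ) / ρ) := (Real.exp_pos _).le
  rw [abs_mul, abs_of_nonneg hG0, abs_pow]
  have hk1 : (k : ℝ) ≤ ((k + 1 : ℕ) : ℝ) := by push_cast; linarith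
  have h1 : |a k| ≤ C * ((k + 1 : ℕ) : ℝ) ^ K := (hC k).trans
    (mul_le_mul_of_nonneg_left (pow_le_pow_left₀ (by positivity) hk1 K) hC0)
  have h2 : |Real.log ((k : ℝ) / ρ)| ≤ (1 / ρ + ρ) * ((k + 1 : ℕ) : ℝ) := by
    rcases Nat.eq_zero_or_pos k with rfl | hk
    · simp
      positivity
    · have hk' : (1 : ℝ) ≤ k := by exact_mod_cast hk
      refine (abs_log_le (div_pos (by linarith) hρ)).trans ?_
      rw [inv_div]
      have h3 : ρ / (k : ℝ) ≤ ρ := div_le_self hρ.le hk'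
      have h4 : (k : ℝ) / ρ ≤ 1 / ρ * ((k + 1 : ℕ) : ℝ) := by
        rw [div_mul_eq_mul_div, one_mul]
        exact div_le_div_of_nonneg_right hk1 hρ.le
      have h5 : ρ ≤ ρ * ((k + 1 : ℕ) : ℝ) := by
        push_cast
        nlinarith
      linarith
  have h3 : |Real.log ((k : ℝ) / ρ)| ^ j ≤ (1 / ρ + ρ) ^ j * ((k + 1 : ℕ) : ℝ) ^ j := by
    rw [← mul_pow]
    exact pow_le_pow_left₀ (abs_nonneg _) h2 j
  calc |a k| * (|Real.log ((k : ℝ) / ρ)| ^ j * GG T ((k : ℝ) / ρ))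
      ≤ (C * ((k + 1 : ℕ) : ℝ) ^ K) * (((1 / ρ + ρ) ^ j * ((k + 1 : ℕ) : ℝ) ^ j) *
          (M * Real.exp (-(1 : ℝ) * ((k + 1 : ℕ) : ℝ)))) := by
        refine mul_le_mul h1 ?_ (by positivity) (by positivity)
        exact mul_le_mul h3 (hM k) hG0 (by positivity)
    _ = _ := by rw [pow_add]; ring

theorem grw : GrwStatement := by
  refine ⟨pgr_one, pgr_lg, pgr_La, pgr_bb, pgr_mul, summable_main, ?_⟩
  rintro α ⟨C, k, hC⟩ T j d ρ hT hρ
  refine summable_main (fun n => α (d * n)) (C * (d : ℝ) ^ k) k (fun n => ?_) T j ρ hT hρ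
  refine (hC (d * n)).trans (le_of_eq ?_)
  push_cast
  rw [mul_pow]
  ring

end Pool.Agent.Lib.MP_6bc78b_nt.MS.L.H97
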